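import Mathlib
import Pool.Agent.Helper99.WP.GoalsW

/-!
# Packet WP LOC
-/

set_option autoImplicit false

open Finset

namespace Pool.Agent.Helper69.WP

open Pool.Agent.Helper99.WP Pool.Agent.Helper99.ERW

theorem isCyc_congr {V : Type} (c c' : V → Option V) (C : Finset V)
    (h : ∀ y ∈ C, c y = c' y) (hc : IsCyc c C) : IsCyc c' C := by
  refine ⟨hc.1, ?_, ?_⟩
  · intro y hy
    obtain ⟨z, hz, e⟩ := hc.2.1 y hy
    exact ⟨z, hz, by rw [← h y hy, e]⟩
  · intro z hz
    obtain ⟨y, hy, e⟩ := hc.2.2 z hz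
    exact ⟨y, hy, by rw [← h y hy, e]⟩

theorem LOC : LOC_stmt := by
  intro V _ ξ ξ' n hr
  unfold Reach at hr ⊢
  induction hr with
  | refl =>
    intro _
    exact Relation.ReflTransGen.refl
  | tail hab hbc ih =>
    rename_i m n'
    intro hag
    obtain ⟨C, hC, rfl⟩ := hbc
    have hle : ∀ y, m y ≤ pop m C y := by
      intro y
      unfold pop
      split_ifs <;> omega
    have hlt : ∀ y ∈ C, m y < pop m C y := by
      intro y hy
      unfold pop
      rw [if_pos hy]
      omega
    have h1 := ih (fun y k hk => hag y k (lt_of_lt_of_le hk (hle y)))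
    refine Relation.ReflTransGen.tail h1 ⟨C, ?_, rfl⟩
    exact isCyc_congr _ _ C (fun y hy => hag y (m y) (hlt y hy)) hC

end Pool.Agent.Helper69.WP
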